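import Mathlib

set_option autoImplicit false

/-! Solutions of a Pell type equation: each solution is at least twice as large as the previous
one. -/

namespace Pool.Agent.H634R3.AA.Pell

theorem double (A C r1 s1 r2 s2 : ℤ) (hA : 1 ≤ A) (hC : 1 ≤ C) (hr1 : 1 ≤ r1) (hs1 : 1 ≤ s1)
    (hr2 : 1 ≤ r2) (hs2 : 1 ≤ s2) (h1 : A * r1 ^ 2 = 1 + C * s1 ^ 2)
    (h2 : A * r2 ^ 2 = 1 + C * s2 ^ 2) (h : r1 < r2) : 2 * r1 ≤ r2 := by
  obtain ⟨y, hy⟩ : ∃ y, y = r1 * s2 - r2 * s1 := ⟨_, rfl⟩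
  obtain ⟨x, hx⟩ : ∃ x, x = A * r1 * r2 - C * s1 * s2 := ⟨_, rfl⟩
  have hsq : r1 ^ 2 < r2 ^ 2 := by nlinarith
  have hy0 : 0 < y := by
    by_contra hcon
    have h3 : r1 * s2 ≤ r2 * s1 := by linarith
    have h4 : (r1 * s2) ^ 2 ≤ (r2 * s1) ^ 2 := pow_le_pow_left₀ (by positivity) h3 2
    have h5 : C * (r1 * s2) ^ 2 ≤ C * (r2 * s1) ^ 2 := mul_le_mul_of_nonneg_left h4 (by linarith)
    have e1 : C * (r1 * s2) ^ 2 = r1 ^ 2 * (A * r2 ^ 2 - 1) := by rw [h2]; ring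
    have e2 : C * (r2 * s1) ^ 2 = r2 ^ 2 * (A * r1 ^ 2 - 1) := by rw [h1]; ring
    rw [e1, e2] at h5
    linarith
  have hid : x ^ 2 = 1 + A * C * y ^ 2 := by
    have e : x ^ 2 - A * C * y ^ 2 = (A * r1 ^ 2 - C * s1 ^ 2) * (A * r2 ^ 2 - C * s2 ^ 2) := by
      rw [hx, hy]; ring
    rw [h1, h2] at e
    linarith
  have hx0 : 0 < x := by
    by_contra hcon
    have h3 : A * r1 * r2 ≤ C * s1 * s2 := by linarith
    have h4 : (A * r1 * r2) ^ 2 ≤ (C * s1 * s2) ^ 2 := pow_le_pow_left₀ (by positivity) h3 2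
    have e1 : (C * s1 * s2) ^ 2 = (A * r1 ^ 2 - 1) * (A * r2 ^ 2 - 1) := by
      rw [h1, h2]; ring
    have e2 : (A * r1 * r2) ^ 2 = (A * r1 ^ 2) * (A * r2 ^ 2) := by ring
    rw [e1, e2] at h4
    have h5 : 1 ≤ A * r1 ^ 2 := by
      have : 0 < C * s1 ^ 2 := by positivity
      linarith
    have h6 : 1 ≤ A * r2 ^ 2 := by
      have : 0 < C * s2 ^ 2 := by positivity
      linarith
    linarith
  have hpos : 1 ≤ A * C * y ^ 2 := by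
    have : 0 < A * C * y ^ 2 := by positivity
    linarith
  have hx2 : 2 ≤ x := by
    by_contra hcon
    have h3 : x = 1 := by omega
    rw [h3] at hid
    linarith
  have hr : r2 = x * r1 + C * y * s1 := by
    have e : x * r1 + C * y * s1 = r2 * (A * r1 ^ 2 - C * s1 ^ 2) := by
      rw [hx, hy]; ring
    rw [e, h1]; ring
  have h7 : 0 < C * y * s1 := by positivity
  nlinarith

theorem double_nat (A C r1 s1 r2 s2 : ℕ) (hA : 1 ≤ A) (hC : 1 ≤ C) (hr1 : 1 ≤ r1) (hs1 : 1 ≤ s1)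
    (hr2 : 1 ≤ r2) (hs2 : 1 ≤ s2) (h1 : A * r1 ^ 2 = 1 + C * s1 ^ 2)
    (h2 : A * r2 ^ 2 = 1 + C * s2 ^ 2) (h : r1 < r2) : 2 * r1 ≤ r2 := by
  have := double A C r1 s1 r2 s2 (by exact_mod_cast hA) (by exact_mod_cast hC)
    (by exact_mod_cast hr1) (by exact_mod_cast hs1) (by exact_mod_cast hr2)
    (by exact_mod_cast hs2) (by exact_mod_cast h1) (by exact_mod_cast h2) (by exact_mod_cast h)
  exact_mod_cast this

theorem log_lt (a b : ℕ) (ha : 1 ≤ a) (h : 2 * a ≤ b) : Nat.log 2 a < Nat.log 2 b := by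
  have h1 : Nat.log 2 (a * 2) = Nat.log 2 a + 1 := Nat.log_mul_base (by norm_num) (by omega)
  have h2 : Nat.log 2 (a * 2) ≤ Nat.log 2 b := Nat.log_mono_right (by omega)
  omega

theorem pell_strong (A C R : ℕ) (hA : 1 ≤ A) (hC : 1 ≤ C) :
    {p : ℕ × ℕ | 1 ≤ p.1 ∧ 1 ≤ p.2 ∧ p.1 ≤ R ∧ A * p.1 ^ 2 = 1 + C * p.2 ^ 2}.ncard ≤
      Nat.log 2 (R + 1) + 1 := by
  have hmaps : ∀ p ∈ {p : ℕ × ℕ | 1 ≤ p.1 ∧ 1 ≤ p.2 ∧ p.1 ≤ R ∧ A * p.1 ^ 2 = 1 + C * p.2 ^ 2},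
      Nat.log 2 p.1 ∈ (Finset.range (Nat.log 2 (R + 1) + 1) : Set ℕ) := by
    rintro p ⟨-, -, h3, -⟩
    rw [Finset.coe_range, Set.mem_Iio]
    have : Nat.log 2 p.1 ≤ Nat.log 2 (R + 1) := Nat.log_mono_right (by omega)
    omega
  have hinj : Set.InjOn (fun p : ℕ × ℕ => Nat.log 2 p.1)
      {p : ℕ × ℕ | 1 ≤ p.1 ∧ 1 ≤ p.2 ∧ p.1 ≤ R ∧ A * p.1 ^ 2 = 1 + C * p.2 ^ 2} := by
    rintro ⟨r1, s1⟩ ⟨a1, a2, -, a4⟩ ⟨r2, s2⟩ ⟨b1, b2, -, b4⟩ hl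
    simp only at a1 a2 a4 b1 b2 b4 hl
    rcases lt_trichotomy r1 r2 with h | h | h
    · have := log_lt r1 r2 a1 (double_nat A C r1 s1 r2 s2 hA hC a1 a2 b1 b2 a4 b4 h)
      omega
    · subst h
      have h5 : C * s1 ^ 2 = C * s2 ^ 2 := by omega
      have h6 : s1 ^ 2 = s2 ^ 2 := Nat.eq_of_mul_eq_mul_left (by omega) h5
      have h7 : s1 = s2 := Nat.pow_left_injective (n := 2) (by norm_num) h6
      rw [h7]
    · have := log_lt r2 r1 b1 (double_nat A C r2 s2 r1 s1 hA hC b1 b2 a1 a2 b4 a4 h)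
      omega
  have h := Set.ncard_le_ncard_of_injOn _ hmaps hinj (Finset.finite_toSet _)
  rwa [Set.ncard_coe_finset, Finset.card_range] at h

theorem pell (A C R : ℕ) (hA : 1 ≤ A) (hC : 1 ≤ C) :
    ({p : ℕ × ℕ | 1 ≤ p.1 ∧ 1 ≤ p.2 ∧ p.1 ≤ R ∧ A * p.1 ^ 2 = 1 + C * p.2 ^ 2}.ncard) ≤
      2 * (Nat.log 2 (R + 1)) + 2 := by
  have := pell_strong A C R hA hC
  omega

end Pool.Agent.H634R3.AA.Pell
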